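import Pool.Agent.Helper75.CG.Defs

/-!
# Project CG, module CG-D: what is preserved, and the deletion of overloaded structures
-/

set_option autoImplicit false

namespace Pool.Agent.Helper75.CG

open scoped Classical
open Finset
open Pool.Agent.Helper65.CliqueGame

section abstract

variable {V : Type} [Fintype V] {ι : Type}

theorem h72_mass_nonneg {φ : Finset V → ℝ} (h0 : ∀ A, 0 ≤ φ A) (S : Finset V) :
    0 ≤ mass φ S := Finset.sum_nonneg fun A _ => h0 A

theorem h72_rat_nonneg {φ cap : Finset V → ℝ} (h0 : ∀ A, 0 ≤ φ A) (hc : ∀ S, 0 < cap S)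
    (S : Finset V) : 0 ≤ rat φ cap S := div_nonneg (h72_mass_nonneg h0 S) (hc S).le

theorem h72_good_of_le {K c : ℝ} {SS : Finset (Finset V)} {φ cap φ' cap' : Finset V → ℝ}
    (hG : Good K SS φ cap) (hc : 0 ≤ c) (h0 : ∀ A, 0 ≤ φ' A) (h1 : ∀ A, φ' A ≤ c * φ A)
    (h2 : ∀ S, cap S ≤ cap' S) : Good (c * K) SS φ' cap' := by
  refine ⟨h0, fun S => (hG.pos S).trans_le (h2 S), fun A hA => ?_⟩
  have hA' : φ A ≠ 0 := by
    intro h
    have := h1 A
    rw [h, mul_zero] at this
    exact hA (le_antisymm this (h0 A))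
  have hrat : ∀ S, rat φ' cap' S ≤ c * rat φ cap S := by
    intro S
    have hm : mass φ' S ≤ c * mass φ S := by
      unfold mass
      rw [Finset.mul_sum]
      exact Finset.sum_le_sum fun B _ => h1 B
    unfold rat
    rw [mul_div_assoc']
    calc mass φ' S / cap' S ≤ mass φ' S / cap S :=
          div_le_div_of_nonneg_left (h72_mass_nonneg h0 S) (hG.pos S) (h2 S)
      _ ≤ c * mass φ S / cap S := div_le_div_of_nonneg_right hm (hG.pos S).le
  calc ∑ S ∈ SS.filter (fun S => S ⊆ A), rat φ' cap' S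
      ≤ ∑ S ∈ SS.filter (fun S => S ⊆ A), c * rat φ cap S :=
        Finset.sum_le_sum fun S _ => hrat S
    _ = c * ∑ S ∈ SS.filter (fun S => S ⊆ A), rat φ cap S := by rw [Finset.mul_sum]
    _ ≤ c * K := mul_le_mul_of_nonneg_left (hG.load A hA') hc

theorem Good.claim1 {K μ : ℝ} {SS : Finset (Finset V)} {φ cap : Finset V → ℝ}
    (hG : Good K SS φ cap) (hμ : 0 ≤ μ) (κ : Finset V) :
    Good ((1 + μ) * K) SS (claim1 μ κ φ) (claim1 μ κ cap) := by
  refine h72_good_of_le hG (by linarith) (fun A => ?_) (fun A => ?_) (fun S => ?_)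
  · unfold Pool.Agent.Helper75.CG.claim1
    split_ifs
    · exact mul_nonneg (by linarith) (hG.nonneg A)
    · exact hG.nonneg A
  · unfold Pool.Agent.Helper75.CG.claim1
    split_ifs
    · exact le_rfl
    · nlinarith [hG.nonneg A]
  · unfold Pool.Agent.Helper75.CG.claim1
    split_ifs
    · nlinarith [hG.pos S]
    · exact le_rfl

theorem Good.kill1 {K : ℝ} {SS : Finset (Finset V)} {φ cap : Finset V → ℝ}
    (hG : Good K SS φ cap) (κ : Finset V) : Good K SS (kill1 κ φ) cap := by
  have h := h72_good_of_le (φ' := Pool.Agent.Helper75.CG.kill1 κ φ) (cap' := cap) hG zero_le_one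
    (fun A => ?_) (fun A => ?_) (fun S => le_rfl)
  · rwa [one_mul] at h
  · unfold Pool.Agent.Helper75.CG.kill1
    split_ifs
    · exact le_rfl
    · exact hG.nonneg A
  · unfold Pool.Agent.Helper75.CG.kill1
    split_ifs
    · linarith [hG.nonneg A]
    · linarith

theorem h72_mass_update (φ : Finset V → ℝ) (A₀ S : Finset V) :
    mass (Function.update φ A₀ 0) S = mass φ S - if S ⊆ A₀ then φ A₀ else 0 := by
  unfold mass
  split_ifs with h
  · have hmem : A₀ ∈ univ.filter (fun A : Finset V => S ⊆ A) := by simp [h]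
    rw [Finset.sum_update_of_mem hmem, zero_add, eq_sub_iff_add_eq,
      ← Finset.sum_sdiff (Finset.singleton_subset_iff.2 hmem), Finset.sum_singleton]
  · rw [sub_zero]
    refine Finset.sum_congr rfl fun A hA => ?_
    rw [Function.update_of_ne]
    rintro rfl
    exact h (by simpa using hA)

theorem h72_PP_update {SS : Finset (Finset V)} {φ cap : Finset V → ℝ} (h0 : ∀ A, 0 ≤ φ A)
    (hcap : ∀ S, 0 < cap S) (A₀ : Finset V)
    (hload : 1 < ∑ S ∈ SS.filter (fun S => S ⊆ A₀), rat φ cap S) :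
    PP SS φ cap ≤ PP SS (Function.update φ A₀ 0) cap := by
  unfold PP
  simp only [h72_mass_update]
  rw [if_pos (Finset.empty_subset _)]
  have hw : 0 ≤ φ A₀ := h0 A₀
  have hmw : ∀ S, S ⊆ A₀ → φ A₀ ≤ mass φ S := by
    intro S hS
    unfold mass
    exact Finset.single_le_sum (f := φ) (fun A _ => h0 A) (by simp [hS])
  have h1 : ∀ S ∈ SS, (mass φ S - if S ⊆ A₀ then φ A₀ else 0) ^ 2 / cap S ≤
      mass φ S ^ 2 / cap S - if S ⊆ A₀ then φ A₀ * rat φ cap S else 0 := by
    intro S _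
    split_ifs with h
    · have hm := hmw S h
      have hc := hcap S
      unfold rat
      rw [mul_div_assoc', ← sub_div]
      refine div_le_div_of_nonneg_right ?_ hc.le
      nlinarith
    · simp
  have h2 := Finset.sum_le_sum h1
  rw [Finset.sum_sub_distrib] at h2
  have h3 : ∑ S ∈ SS, (if S ⊆ A₀ then φ A₀ * rat φ cap S else 0) =
      φ A₀ * ∑ S ∈ SS.filter (fun S => S ⊆ A₀), rat φ cap S := by
    rw [Finset.mul_sum, Finset.sum_filter]
  rw [h3] at h2
  nlinarith

/-- overloaded structures can be deleted -/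
theorem delete {SS : Finset (Finset V)} {φ cap : Finset V → ℝ} (h0 : ∀ A, 0 ≤ φ A)
    (hcap : ∀ S, 0 < cap S) :
    ∃ φ' : Finset V → ℝ, (∀ A, φ' A = φ A ∨ φ' A = 0) ∧ Good 1 SS φ' cap ∧
      PP SS φ cap ≤ PP SS φ' cap := by
  induction hn : (univ.filter (fun A : Finset V => φ A ≠ 0)).card using Nat.strong_induction_on
    generalizing φ with
  | _ n ih =>
    by_cases hG : Good 1 SS φ cap
    · exact ⟨φ, fun A => Or.inl rfl, hG, le_rfl⟩
    · have : ∃ A₀, φ A₀ ≠ 0 ∧ 1 < ∑ S ∈ SS.filter (fun S => S ⊆ A₀), rat φ cap S := by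
        by_contra hcon
        push Not at hcon
        exact hG ⟨h0, hcap, hcon⟩
      obtain ⟨A₀, hA₀, hload⟩ := this
      have hlt : (univ.filter (fun A : Finset V => Function.update φ A₀ 0 A ≠ 0)).card < n := by
        rw [← hn]
        refine Finset.card_lt_card ?_
        rw [Finset.ssubset_iff_of_subset]
        · exact ⟨A₀, by simp [hA₀], by simp⟩
        · intro A hA
          simp only [Finset.mem_filter, Finset.mem_univ, true_and] at hA ⊢
          by_cases h : A = A₀
          · rw [h, Function.update_self] at hA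
            exact absurd rfl hA
          · rwa [Function.update_of_ne h] at hA
      obtain ⟨φ', h1, h2, h3⟩ := ih _ hlt (φ := Function.update φ A₀ 0) (fun A => by
        by_cases h : A = A₀
        · rw [h, Function.update_self]
        · rw [Function.update_of_ne h]
          exact h0 A) rfl
      refine ⟨φ', fun A => ?_, h2, (h72_PP_update h0 hcap A₀ hload).trans h3⟩
      rcases h1 A with h | h
      · by_cases hA : A = A₀
        · rw [hA, Function.update_self] at h
          rw [hA]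
          exact Or.inr h
        · rw [Function.update_of_ne hA] at h
          exact Or.inl h
      · exact Or.inr h

theorem SlopeA.slope {ν μ : ℝ} {SS : Finset (Finset V)} {φ cap : Finset V → ℝ} {act : Finset ι}
    {κ : ι → Finset V} (h : SlopeA ν SS φ cap act κ μ) (hμ : 0 ≤ μ) (hcap : ∀ S, 0 < cap S)
    {i : ι} (hi : i ∈ act) : Slope ν SS φ cap (κ i) := by
  intro A hA S hS hSA hκ
  obtain ⟨h1, h2⟩ := h A hA S hS i hi hSA hκ
  refine ⟨h1, le_trans ?_ h2⟩
  have h3 : (1 : ℝ) ≤ (1 + μ) ^ (act.filter (fun j => κ j ⊆ S ∪ κ i ∧ ¬ κ j ⊆ S)).card :=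
    one_le_pow₀ (by linarith)
  have h4 := hcap (S ∪ κ i)
  nlinarith

theorem h72_claim_supp {μ : ℝ} {φ : Finset V → ℝ} {κ A : Finset V}
    (h : Pool.Agent.Helper75.CG.claim1 μ κ φ A ≠ 0) : φ A ≠ 0 := by
  intro h'
  apply h
  unfold Pool.Agent.Helper75.CG.claim1
  rw [h', mul_zero, ite_self]

theorem SlopeA.claim {ν μ : ℝ} {SS : Finset (Finset V)} {φ cap : Finset V → ℝ} {act : Finset ι}
    {κ : ι → Finset V} (h : SlopeA ν SS φ cap act κ μ) (hμ : 0 ≤ μ) {i : ι} (hi : i ∈ act) :
    SlopeA ν SS (Pool.Agent.Helper75.CG.claim1 μ (κ i) φ)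
      (Pool.Agent.Helper75.CG.claim1 μ (κ i) cap) (act.erase i) κ μ := by
  intro A hA S hS j hj hSA hκ
  obtain ⟨h1, h2⟩ := h A (h72_claim_supp hA) S hS j (Finset.mem_of_mem_erase hj) hSA hκ
  refine ⟨h1, ?_⟩
  have hfil : (act.erase i).filter (fun l => κ l ⊆ S ∪ κ j ∧ ¬ κ l ⊆ S) =
      (act.filter (fun l => κ l ⊆ S ∪ κ j ∧ ¬ κ l ⊆ S)).erase i := by
    ext l
    simp only [Finset.mem_filter, Finset.mem_erase]
    tauto
  rw [hfil]
  unfold Pool.Agent.Helper75.CG.claim1
  by_cases c1 : κ i ⊆ S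
  · rw [if_pos c1, if_pos (c1.trans Finset.subset_union_left), Finset.erase_eq_of_notMem (by
      simp [c1])]
    nlinarith
  · by_cases c2 : κ i ⊆ S ∪ κ j
    · rw [if_neg c1, if_pos c2]
      have hmem : i ∈ act.filter (fun l => κ l ⊆ S ∪ κ j ∧ ¬ κ l ⊆ S) := by
        simp [hi, c1, c2]
      rw [← Finset.card_erase_add_one hmem, pow_succ] at h2
      linarith
    · rw [if_neg c1, if_neg c2, Finset.erase_eq_of_notMem (by simp [c2])]
      exact h2

theorem SlopeA.mono {ν μ : ℝ} {SS : Finset (Finset V)} {φ φ' cap : Finset V → ℝ}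
    {act act' : Finset ι} {κ : ι → Finset V} (h : SlopeA ν SS φ cap act κ μ) (hμ : 0 ≤ μ)
    (hcap : ∀ S, 0 < cap S) (hφ : ∀ A, φ' A ≠ 0 → φ A ≠ 0) (hact : act' ⊆ act) :
    SlopeA ν SS φ' cap act' κ μ := by
  intro A hA S hS i hi hSA hκ
  obtain ⟨h1, h2⟩ := h A (hφ A hA) S hS i (hact hi) hSA hκ
  refine ⟨h1, le_trans ?_ h2⟩
  refine mul_le_mul_of_nonneg_right ?_ (hcap _).le
  exact pow_le_pow_right₀ (by linarith)
    (Finset.card_le_card (Finset.filter_subset_filter _ hact))

end abstract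

end Pool.Agent.Helper75.CG
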